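import Pool.Agent.H51.MFQ.S1

/-!
# Board mfq: GEN (generic elements contain the complement of a hypersurface)
-/

set_option autoImplicit false

open Module

namespace Pool.MFQ

namespace GENn

variable {𝔤 : Type} [LieRing 𝔤] [LieAlgebra ℂ 𝔤]

/-- The map `w ↦ ξ ∘ ad w` on `W`. -/
noncomputable def TW (W : Submodule ℂ 𝔤) (ξ : Dual ℂ 𝔤) : W →ₗ[ℂ] Dual ℂ 𝔤 where
  toFun x := ξ ∘ₗ (LieAlgebra.ad ℂ 𝔤 (x : 𝔤) : 𝔤 →ₗ[ℂ] 𝔤)
  map_add' a b := by
    ext y
    simp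
  map_smul' a b := by
    ext y
    simp

theorem TW_apply (W : Submodule ℂ 𝔤) (ξ : Dual ℂ 𝔤) (x : W) (y : 𝔤) :
    TW W ξ x y = ξ ⁅(x : 𝔤), y⁆ := rfl

/-- Surjectivity of independent functionals. -/
theorem exists_dual {E : Type} [AddCommGroup E] [Module ℂ E] [FiniteDimensional ℂ E] {r : ℕ}
    (φ : Fin r → Dual ℂ E) (hφ : LinearIndependent ℂ φ) :
    ∃ y : Fin r → E, ∀ i j, φ i (y j) = if i = j then 1 else 0 := by
  have hsurj : Function.Surjective (LinearMap.pi φ : E →ₗ[ℂ] (Fin r → ℂ)) := by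
    rw [← LinearMap.range_eq_top]
    by_contra hne
    obtain ⟨f, hf1, hf2⟩ := Submodule.exists_le_ker_of_lt_top _ (lt_top_iff_ne_top.2 hne)
    apply hf1
    have h1 : ∑ i, f (Pi.single i 1) • φ i = 0 := by
      ext y
      have h2 : f (LinearMap.pi φ y) = 0 := hf2 ⟨y, rfl⟩
      rw [LinearMap.pi_apply_eq_sum_univ f] at h2
      simp only [LinearMap.pi_apply, smul_eq_mul] at h2
      simp only [LinearMap.sum_apply, LinearMap.smul_apply, smul_eq_mul, LinearMap.zero_apply]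
      rw [← h2]
      exact Finset.sum_congr rfl fun i _ => by
        rw [mul_comm]
        congr 2
        funext j
        simp [Pi.single_apply, eq_comm]
    have h3 := Fintype.linearIndependent_iff.1 hφ _ h1
    refine LinearMap.pi_ext' fun i => ?_
    ext
    simpa using h3 i
  choose y hy using fun j : Fin r => hsurj (Pi.single j 1)
  refine ⟨y, fun i j => ?_⟩
  have h1 := congrFun (hy j) i
  rw [LinearMap.pi_apply] at h1
  rw [h1, Pi.single_apply]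

theorem finrank_ker (W : Submodule ℂ 𝔤) (ξ : Dual ℂ 𝔤) [FiniteDimensional ℂ 𝔤] :
    finrank ℂ (LinearMap.range (TW W ξ)) + finrank ℂ (stab ξ ⊓ W : Submodule ℂ 𝔤) =
      finrank ℂ W := by
  have h1 := LinearMap.finrank_range_add_finrank_ker (TW W ξ)
  have h2 : LinearMap.ker (TW W ξ) = (stab ξ).comap W.subtype := by
    ext x
    rw [LinearMap.mem_ker, Submodule.mem_comap]
    constructor
    · intro h y
      have := congrArg (fun φ : Dual ℂ 𝔤 => φ y) h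
      exact this
    · intro h
      ext y
      exact h y
  have h3 : finrank ℂ ((stab ξ).comap W.subtype) = finrank ℂ (stab ξ ⊓ W : Submodule ℂ 𝔤) := by
    rw [← Submodule.finrank_map_subtype_eq W ((stab ξ).comap W.subtype),
      Submodule.map_comap_subtype, inf_comm]
  rw [h2, h3] at h1
  exact h1

variable (𝔤) in
/-- The algebra of polynomial functions. -/
abbrev PF : Subalgebra ℂ (Dual ℂ 𝔤 → ℂ) :=
  Algebra.adjoin ℂ (Set.range fun (x : 𝔤) (ξ : Dual ℂ 𝔤) => ξ x)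

theorem det_mem {r : ℕ} (x y : Fin r → 𝔤) :
    (fun ξ : Dual ℂ 𝔤 => (Matrix.of fun i j => ξ ⁅x i, y j⁆).det) ∈ PF 𝔤 := by
  have h1 : (fun ξ : Dual ℂ 𝔤 => (Matrix.of fun i j => ξ ⁅x i, y j⁆).det) =
      ∑ σ : Equiv.Perm (Fin r), Equiv.Perm.sign σ •
        ∏ i, (fun ξ : Dual ℂ 𝔤 => ξ ⁅x (σ i), y i⁆) := by
    funext ξ
    rw [Matrix.det_apply, Finset.sum_apply]
    refine Finset.sum_congr rfl fun σ _ => ?_
    rw [Pi.smul_apply, Finset.prod_apply]
    rfl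
  rw [h1]
  refine Subalgebra.sum_mem _ fun σ _ => ?_
  have h2 : (∏ i, (fun ξ : Dual ℂ 𝔤 => ξ ⁅x (σ i), y i⁆)) ∈ PF 𝔤 :=
    Subalgebra.prod_mem _ fun i _ => Algebra.subset_adjoin ⟨_, rfl⟩
  rcases Int.units_eq_one_or (Equiv.Perm.sign σ) with h | h
  · rw [h, one_smul]
    exact h2
  · rw [h, Units.neg_smul, one_smul]
    exact Subalgebra.neg_mem _ h2

/-- Genericity for one subspace. -/
theorem one [FiniteDimensional ℂ 𝔤] (W : Submodule ℂ 𝔤) :
    ∃ Δ ∈ PF 𝔤, Δ ≠ 0 ∧ ∀ a : Dual ℂ 𝔤, Δ a ≠ 0 → ∀ ξ : Dual ℂ 𝔤,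
      finrank ℂ (stab a ⊓ W : Submodule ℂ 𝔤) ≤ finrank ℂ (stab ξ ⊓ W : Submodule ℂ 𝔤) := by
  obtain ⟨ξ₀, h0⟩ : ∃ ξ₀ : Dual ℂ 𝔤, ∀ ξ, finrank ℂ (stab ξ₀ ⊓ W : Submodule ℂ 𝔤) ≤
      finrank ℂ (stab ξ ⊓ W : Submodule ℂ 𝔤) := by
    refine ⟨Function.argmin (fun ξ : Dual ℂ 𝔤 => finrank ℂ (stab ξ ⊓ W : Submodule ℂ 𝔤)),
      fun ξ => Function.argmin_le
        (fun ξ : Dual ℂ 𝔤 => finrank ℂ (stab ξ ⊓ W : Submodule ℂ 𝔤)) ξ⟩
  set r := finrank ℂ (LinearMap.range (TW W ξ₀)) with hr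
  obtain ⟨x, hx⟩ : ∃ x : Fin r → W, LinearIndependent ℂ (fun i => TW W ξ₀ (x i)) := by
    let b := finBasis ℂ (LinearMap.range (TW W ξ₀))
    choose x hx using fun i => (b i).2
    refine ⟨x, ?_⟩
    have h1 : (fun i => TW W ξ₀ (x i)) = fun i => ((b i : LinearMap.range (TW W ξ₀)) :
        Dual ℂ 𝔤) := funext hx
    rw [h1]
    exact b.linearIndependent.map' (LinearMap.range (TW W ξ₀)).subtype
      (Submodule.ker_subtype _)
  obtain ⟨y, hy⟩ := exists_dual _ hx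
  refine ⟨_, det_mem (fun i => (x i : 𝔤)) y, ?_, ?_⟩
  · intro h
    have h1 := congrFun h ξ₀
    have h2 : (Matrix.of fun i j => ξ₀ ⁅(x i : 𝔤), y j⁆) = (1 : Matrix (Fin r) (Fin r) ℂ) := by
      ext i j
      rw [Matrix.of_apply, Matrix.one_apply]
      exact hy i j
    rw [h2, Matrix.det_one] at h1
    exact one_ne_zero h1
  · intro a ha ξ
    refine le_trans ?_ (h0 ξ)
    have h1 : LinearIndependent ℂ (fun i => TW W a (x i)) := by
      rw [Fintype.linearIndependent_iff]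
      intro c hc
      have h2 : Matrix.vecMul c (Matrix.of fun i j => a ⁅(x i : 𝔤), y j⁆) = 0 := by
        funext j
        have h3 := congrArg (fun φ : Dual ℂ 𝔤 => φ (y j)) hc
        simp only [LinearMap.sum_apply, LinearMap.smul_apply, TW_apply, smul_eq_mul,
          LinearMap.zero_apply] at h3
        rw [Matrix.vecMul, dotProduct]
        exact h3
      have h4 := Matrix.eq_zero_of_vecMul_eq_zero ha h2
      exact fun i => congrFun h4 i
    have h5 : r ≤ finrank ℂ (LinearMap.range (TW W a)) := by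
      have h6 : LinearIndependent ℂ (fun i : Fin r => (⟨TW W a (x i), ⟨x i, rfl⟩⟩ :
          LinearMap.range (TW W a))) := by
        refine LinearIndependent.of_comp (LinearMap.range (TW W a)).subtype ?_
        exact h1
      have h7 := h6.fintype_card_le_finrank
      rwa [Fintype.card_fin] at h7
    have h8 := finrank_ker W ξ₀
    have h9 := finrank_ker W a
    omega

/-- Restriction of polynomial functions to lines. -/
theorem line (Δ : Dual ℂ 𝔤 → ℂ) (hΔ : Δ ∈ PF 𝔤) (a b : Dual ℂ 𝔤) :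
    ∃ p : Polynomial ℂ, ∀ s : ℂ, Δ (a + s • b) = p.eval s := by
  refine Algebra.adjoin_induction (p := fun Δ _ => ∃ p : Polynomial ℂ, ∀ s : ℂ,
    Δ (a + s • b) = p.eval s) ?_ ?_ ?_ ?_ hΔ
  · rintro _ ⟨x, rfl⟩
    refine ⟨Polynomial.C (a x) + Polynomial.X * Polynomial.C (b x), fun s => ?_⟩
    simp
    ring
  · intro r
    exact ⟨Polynomial.C r, fun s => by simp⟩
  · rintro f g _ _ ⟨p, hp⟩ ⟨q, hq⟩
    exact ⟨p + q, fun s => by simp [hp, hq]⟩
  · rintro f g _ _ ⟨p, hp⟩ ⟨q, hq⟩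
    exact ⟨p * q, fun s => by simp [hp, hq]⟩

/-- Products of nonzero polynomial functions. -/
theorem mul_ne (f g : Dual ℂ 𝔤 → ℂ) (hf : f ∈ PF 𝔤) (hg : g ∈ PF 𝔤) (hf0 : f ≠ 0)
    (hg0 : g ≠ 0) : f * g ≠ 0 := by
  obtain ⟨a, ha⟩ := Function.ne_iff.1 hf0
  obtain ⟨b, hb⟩ := Function.ne_iff.1 hg0
  obtain ⟨p, hp⟩ := line f hf a (b - a)
  obtain ⟨q, hq⟩ := line g hg a (b - a)
  have hp0 : p ≠ 0 := by
    rintro rfl
    apply ha
    have := hp 0
    simpa using this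
  have hq0 : q ≠ 0 := by
    rintro rfl
    apply hb
    have := hq 1
    simpa using this
  intro h
  apply mul_ne_zero hp0 hq0
  refine Polynomial.funext fun s => ?_
  rw [Polynomial.eval_mul, ← hp, ← hq, Polynomial.eval_zero]
  exact congrFun h (a + s • (b - a))

end GENn

open GENn in
/-- GEN. -/
theorem t_gen : GENStmt := by
  intro 𝔤 _ _ _ V
  obtain ⟨f, hf1, hf2, hf3⟩ := one (⊤ : Submodule ℂ 𝔤)
  obtain ⟨g, hg1, hg2, hg3⟩ := one V.toSubmodule
  refine ⟨f * g, Subalgebra.mul_mem _ hf1 hg1, mul_ne f g hf1 hg1 hf2 hg2, fun a ha => ?_⟩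
  have h1 : f a ≠ 0 := left_ne_zero_of_mul ha
  have h2 : g a ≠ 0 := right_ne_zero_of_mul ha
  refine ⟨fun ξ => ?_, hg3 a h2⟩
  have h3 := hf3 a h1 ξ
  rwa [inf_top_eq, inf_top_eq] at h3

end Pool.MFQ
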