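import Pool.Agent.H51.MFQ.S1

/-!
# Board mfq: SLF (the partial derivatives of the product of the flows)
-/

set_option autoImplicit false

open Module Filter Topology

namespace Pool.MFQ

namespace SLFn

variable {E κ : Type} [NormedAddCommGroup E] [NormedSpace ℂ E] [FiniteDimensional ℂ E] [Fintype κ]

omit [FiniteDimensional ℂ E] [Fintype κ] in
theorem flow_succ {m : ℕ} (A : κ → (E →L[ℂ] E)) (l : Fin (m + 1) → κ) (t : Fin (m + 1) → ℂ) :
    flow A l t = NormedSpace.exp (t 0 • A (l 0)) *
      flow A (fun i => l i.succ) (fun i => t i.succ) := by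
  simp only [flow, List.ofFn_succ, List.prod_cons]

theorem exp_mem (hEXA : EXAStmt) (A : κ → (E →L[ℂ] E)) (hA : LieCl A) (i : κ) (s : ℂ) (y v : E)
    (hv : v ∈ NN A y) : NormedSpace.exp (s • A i) v ∈ NN A (NormedSpace.exp (s • A i) y) := by
  have : CompleteSpace E := FiniteDimensional.complete ℂ E
  refine Submodule.span_induction (p := fun v _ => NormedSpace.exp (s • A i) v ∈
    NN A (NormedSpace.exp (s • A i) y)) ?_ ?_ ?_ ?_ hv
  · rintro _ ⟨j, rfl⟩
    obtain ⟨c, hc⟩ := hEXA E κ A hA i j s
    let : NormedAlgebra ℚ (E →L[ℂ] E) := NormedAlgebra.restrictScalars ℚ ℂ (E →L[ℂ] E)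
    have h1 : NormedSpace.exp (-(s • A i)) * NormedSpace.exp (s • A i) = 1 := by
      rw [← NormedSpace.exp_add_of_commute, neg_add_cancel, NormedSpace.exp_zero]
      exact (Commute.refl _).neg_left
    have h2 : NormedSpace.exp (s • A i) * A j =
        (∑ k, c k • A k) * NormedSpace.exp (s • A i) := by
      rw [← hc, mul_assoc, h1, mul_one]
    have h3 : NormedSpace.exp (s • A i) (A j y) =
        ∑ k, c k • A k (NormedSpace.exp (s • A i) y) := by
      have h4 := congrArg (fun L : E →L[ℂ] E => L y) h2
      simpa using h4
    change NormedSpace.exp (s • A i) (A j y) ∈ _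
    rw [h3]
    exact Submodule.sum_mem _ fun k _ =>
      Submodule.smul_mem _ _ (Submodule.subset_span ⟨k, rfl⟩)
  · rw [map_zero]
    exact Submodule.zero_mem _
  · intro a b _ _ ha hb
    rw [map_add]
    exact Submodule.add_mem _ ha hb
  · intro c a _ ha
    rw [map_smul]
    exact Submodule.smul_mem _ _ ha

end SLFn

open SLFn in
/-- SLF. -/
theorem t_slf (hEXA : EXAStmt) : SLFStmt := by
  intro E κ _ _ _ _ A m
  have : CompleteSpace E := FiniteDimensional.complete ℂ E
  induction m with
  | zero =>
    intro l _ t x p
    exact p.elim0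
  | succ m ih =>
    intro l hA t x p
    refine Fin.cases ?_ (fun q => ?_) p
    · -- the first factor
      have h1 : ∀ s : ℂ, flow A l (Function.update t 0 s) x =
          NormedSpace.exp (s • A (l 0)) (flow A (fun i => l i.succ) (fun i => t i.succ) x) := by
        intro s
        rw [flow_succ]
        simp [Fin.succ_ne_zero]
      have h2 : flow A l t x =
          NormedSpace.exp (t 0 • A (l 0)) (flow A (fun i => l i.succ) (fun i => t i.succ) x) := by
        rw [flow_succ]
        rfl
      refine ⟨A (l 0) (flow A l t x), Submodule.subset_span ⟨l 0, rfl⟩, ?_⟩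
      simp only [h1]
      have h3 : HasDerivAt (fun s : ℂ => NormedSpace.exp (s • A (l 0)))
          (A (l 0) * NormedSpace.exp (t 0 • A (l 0))) (t 0) :=
        hasDerivAt_exp_smul_const' (A (l 0)) (t 0)
      have h4 := h3.clm_apply (hasDerivAt_const (t 0)
        (flow A (fun i => l i.succ) (fun i => t i.succ) x))
      simp only [map_zero, add_zero] at h4
      rw [h2]
      exact h4
    · obtain ⟨v, hv1, hv2⟩ := ih (fun i => l i.succ) hA (fun i => t i.succ) x q
      refine ⟨NormedSpace.exp (t 0 • A (l 0)) v, ?_, ?_⟩
      · rw [flow_succ]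
        exact exp_mem hEXA A hA (l 0) (t 0) _ v hv1
      · have h1 : ∀ s : ℂ, flow A l (Function.update t q.succ s) x =
            NormedSpace.exp (t 0 • A (l 0))
              (flow A (fun i => l i.succ) (Function.update (fun i => t i.succ) q s) x) := by
          intro s
          rw [flow_succ]
          have h2 : (fun i : Fin m => Function.update t q.succ s i.succ) =
              Function.update (fun i => t i.succ) q s := by
            funext i
            by_cases h : i = q
            · subst h
              simp
            · rw [Function.update_of_ne h, Function.update_of_ne]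
              exact fun h' => h (Fin.succ_injective _ h')
          rw [h2, Function.update_of_ne (Fin.succ_ne_zero q).symm]
          rfl
        simp only [h1]
        exact (NormedSpace.exp (t 0 • A (l 0))).hasFDerivAt.comp_hasDerivAt _ hv2

end Pool.MFQ
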