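import Pool.Agent.H51.MFQ.S1

/-!
# Board mfq: SLI (existence of a complete set of local invariants)
-/

set_option autoImplicit false

open Module Filter Topology

namespace Pool.MFQ

namespace SLIn

/-- Products of analytic functions over lists. -/
theorem analyticAt_listProd {X B : Type*} [NormedAddCommGroup X] [NormedSpace ℂ X]
    [NormedRing B] [NormedAlgebra ℂ B] :
    ∀ (m : ℕ) (G : Fin m → X → B) (x : X), (∀ i, AnalyticAt ℂ (G i) x) →
      AnalyticAt ℂ (fun y => (List.ofFn fun i => G i y).prod) x := by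
  intro m
  induction m with
  | zero =>
    intro G x _
    simp only [List.ofFn_zero, List.prod_nil]
    exact analyticAt_const
  | succ m ih =>
    intro G x h
    have h1 : (fun y => (List.ofFn fun i => G i y).prod) =
        (G 0) * (fun y => (List.ofFn fun i : Fin m => G i.succ y).prod) := by
      funext y
      simp only [List.ofFn_succ, List.prod_cons, Pi.mul_apply]
    rw [h1]
    exact (h 0).mul (ih (fun i => G i.succ) x fun i => h i.succ)

/-- The derivative at `0` of a product of exponentials. -/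
theorem hasFDerivAt_flow {B : Type*} [NormedRing B] [NormedAlgebra ℂ B] [CompleteSpace B] :
    ∀ (m : ℕ) (b : Fin m → B),
      HasFDerivAt (fun t : Fin m → ℂ => (List.ofFn fun i => NormedSpace.exp (t i • b i)).prod)
        (∑ i, (ContinuousLinearMap.proj (R := ℂ) (φ := fun _ : Fin m => ℂ) i).smulRight (b i))
        0 := by
  intro m
  induction m with
  | zero =>
    intro b
    simp only [List.ofFn_zero, List.prod_nil, Finset.univ_eq_empty, Finset.sum_empty]
    exact hasFDerivAt_const _ _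
  | succ m ih =>
    intro b
    have h1 : (fun t : Fin (m + 1) → ℂ =>
        (List.ofFn fun i => NormedSpace.exp (t i • b i)).prod) =
        (fun t : Fin (m + 1) → ℂ => NormedSpace.exp (t 0 • b 0)) *
        (fun t : Fin (m + 1) → ℂ =>
          (List.ofFn fun i : Fin m => NormedSpace.exp (t i.succ • b i.succ)).prod) := by
      funext y
      simp only [List.ofFn_succ, List.prod_cons, Pi.mul_apply]
    rw [h1]
    have hA : HasFDerivAt (fun t : Fin (m + 1) → ℂ => NormedSpace.exp (t 0 • b 0))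
        ((ContinuousLinearMap.proj (R := ℂ) (φ := fun _ : Fin (m + 1) => ℂ) 0).smulRight (b 0))
        0 := by
      have h2 : HasFDerivAt (fun t : Fin (m + 1) → ℂ => t 0 • b 0)
          ((ContinuousLinearMap.proj (R := ℂ) (φ := fun _ : Fin (m + 1) => ℂ) 0).smulRight
            (b 0)) 0 :=
        ((ContinuousLinearMap.proj (R := ℂ) (φ := fun _ : Fin (m + 1) => ℂ) 0).smulRight
          (b 0)).hasFDerivAt
      have h3 : HasFDerivAt (𝕜 := ℂ) (NormedSpace.exp : B → B) (1 : B →L[ℂ] B)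
          ((fun t : Fin (m + 1) → ℂ => t 0 • b 0) 0) := by
        have h4 : (fun t : Fin (m + 1) → ℂ => t 0 • b 0) 0 = 0 := by simp
        rw [h4]
        exact hasFDerivAt_exp_zero
      have h5 := h3.comp (0 : Fin (m + 1) → ℂ) h2
      exact h5
    have hT : HasFDerivAt (fun t : Fin (m + 1) → ℂ => fun i : Fin m => t i.succ)
        (ContinuousLinearMap.pi fun i : Fin m =>
          ContinuousLinearMap.proj (R := ℂ) (φ := fun _ : Fin (m + 1) => ℂ) i.succ) 0 :=
      (ContinuousLinearMap.pi fun i : Fin m =>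
          ContinuousLinearMap.proj (R := ℂ) (φ := fun _ : Fin (m + 1) => ℂ) i.succ).hasFDerivAt
    have hB := (ih fun i => b i.succ).comp (0 : Fin (m + 1) → ℂ) hT
    have hC := hA.mul' hB
    refine hC.congr_fderiv ?_
    ext t
    simp only [Function.comp, Pi.zero_apply, zero_smul, NormedSpace.exp_zero,
      Fin.sum_univ_succ]
    simp [add_comm]

/-- The flow is analytic. -/
theorem analyticAt_flow {E κ : Type} [NormedAddCommGroup E] [NormedSpace ℂ E]
    [FiniteDimensional ℂ E] {m : ℕ} (A : κ → (E →L[ℂ] E)) (l : Fin m → κ) (t : Fin m → ℂ) :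
    AnalyticAt ℂ (flow A l) t := by
  have : CompleteSpace E := FiniteDimensional.complete ℂ E
  refine analyticAt_listProd m (fun i t => NormedSpace.exp (t i • A (l i))) t fun i => ?_
  have h1 : AnalyticAt ℂ (fun t : Fin m → ℂ => t i • A (l i)) t :=
    ((ContinuousLinearMap.proj (R := ℂ) (φ := fun _ : Fin m => ℂ) i).smulRight
      (A (l i))).analyticAt t
  exact AnalyticAt.comp (g := NormedSpace.exp) (f := fun t : Fin m → ℂ => t i • A (l i))
    (NormedSpace.exp_analytic (𝕂 := ℂ) (t i • A (l i))) h1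

end SLIn

open SLIn in
/-- SLI. -/
theorem t_sli (hLOC : LOCStmt) (hSLF : SLFStmt) : SLIStmt := by
  intro E κ _ _ _ _ A a m r hA hm hr
  classical
  have : CompleteSpace E := FiniteDimensional.complete ℂ E
  have hma : finrank ℂ (NN A a) = m := hm.self_of_nhds
  -- a basis of `NN A a` among the `A i a`
  obtain ⟨l, hl1, hl2⟩ : ∃ l : Fin m → κ, LinearIndependent ℂ (fun i => A (l i) a) ∧
      Submodule.span ℂ (Set.range fun i => A (l i) a) = NN A a := by
    obtain ⟨w, hw1, hw2, hw3⟩ := Submodule.exists_fun_fin_finrank_span_eq ℂ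
      (Set.range fun i => A i a)
    choose l hl using hw1
    have hl' : (fun i => A (l i) a) = w := funext hl
    have e : m = finrank ℂ (Submodule.span ℂ (Set.range fun i => A i a)) := hma.symm
    refine ⟨fun i => l (Fin.cast e i), ?_, ?_⟩
    · have h1 : (fun i => A (l (Fin.cast e i)) a) = w ∘ Fin.cast e :=
        funext fun i => hl _
      rw [h1]
      exact hw3.comp _ (Fin.cast_injective e)
    · have h1 : (fun i => A (l (Fin.cast e i)) a) = w ∘ Fin.cast e :=
        funext fun i => hl _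
      have h2 : Set.range (w ∘ Fin.cast e) = Set.range w := (finCongr e).surjective.range_comp w
      rw [h1, h2, hw2]
      rfl
  -- a complement with a basis
  obtain ⟨C, hC⟩ := Submodule.exists_isCompl (NN A a)
  have hCr : finrank ℂ C = r := by
    have h1 := Submodule.finrank_add_eq_of_isCompl hC
    omega
  obtain ⟨c, hc1, hc2⟩ : ∃ c : Fin r → E, LinearIndependent ℂ c ∧
      Submodule.span ℂ (Set.range c) = C := by
    let bC : Basis (Fin r) ℂ C := Module.finBasisOfFinrankEq ℂ C hCr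
    refine ⟨fun j => (bC j : E), ?_, ?_⟩
    · exact bC.linearIndependent.map' C.subtype (Submodule.ker_subtype C)
    · have h1 : (fun j => (bC j : E)) = C.subtype ∘ bC := rfl
      rw [h1, Set.range_comp, ← Submodule.map_span, bC.span_eq, Submodule.map_top,
        Submodule.range_subtype]
  -- the map `Ψ`
  let cc' : (Fin r → ℂ) →L[ℂ] E :=
    ∑ j, (ContinuousLinearMap.proj (R := ℂ) (φ := fun _ : Fin r => ℂ) j).smulRight (c j)
  have hcc : ∀ u, cc' u = ∑ j, u j • c j := fun u => by
    simp [cc']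
  let Ψ : (Fin m → ℂ) × (Fin r → ℂ) → E := fun p => flow A l p.1 (a + cc' p.2)
  have hΨan : ∀ p, AnalyticAt ℂ Ψ p := by
    intro p
    have h1 : AnalyticAt ℂ (fun p : (Fin m → ℂ) × (Fin r → ℂ) => flow A l p.1) p :=
      AnalyticAt.comp (g := flow A l) (f := Prod.fst) (analyticAt_flow A l p.1) analyticAt_fst
    have h2 : AnalyticAt ℂ (fun p : (Fin m → ℂ) × (Fin r → ℂ) => a + cc' p.2) p :=
      analyticAt_const.add
        (AnalyticAt.comp (g := cc') (f := Prod.snd) (cc'.analyticAt p.2) analyticAt_snd)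
    exact AnalyticAt.comp (g := fun x : (E →L[ℂ] E) × E => x.1 x.2)
      (f := fun p : (Fin m → ℂ) × (Fin r → ℂ) => (flow A l p.1, a + cc' p.2))
      ((ContinuousLinearMap.id ℂ (E →L[ℂ] E)).analyticAt_bilinear _) (h1.prod h2)
  have hflow0 : flow A l 0 = 1 := by
    simp [flow]
  have hΨ0 : Ψ (0, 0) = a := by
    change flow A l 0 (a + cc' 0) = a
    rw [hflow0]
    simp
  -- the derivative of `Ψ` at the origin
  have hD0 : HasFDerivAt Ψ
      (((∑ i, (ContinuousLinearMap.proj (R := ℂ) (φ := fun _ : Fin m => ℂ) i).smulRight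
        (A (l i) a)).comp (ContinuousLinearMap.fst ℂ (Fin m → ℂ) (Fin r → ℂ))) +
        cc'.comp (ContinuousLinearMap.snd ℂ (Fin m → ℂ) (Fin r → ℂ))) (0, 0) := by
    have h1 : HasFDerivAt (fun p : (Fin m → ℂ) × (Fin r → ℂ) => flow A l p.1)
        ((∑ i, (ContinuousLinearMap.proj (R := ℂ) (φ := fun _ : Fin m => ℂ) i).smulRight
        (A (l i))).comp (ContinuousLinearMap.fst ℂ (Fin m → ℂ) (Fin r → ℂ))) (0, 0) :=
      HasFDerivAt.comp (g := flow A l) (f := Prod.fst) ((0, 0) : (Fin m → ℂ) × (Fin r → ℂ))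
        (hasFDerivAt_flow m fun i => A (l i)) hasFDerivAt_fst
    have h2 : HasFDerivAt (fun p : (Fin m → ℂ) × (Fin r → ℂ) => a + cc' p.2)
        (cc'.comp (ContinuousLinearMap.snd ℂ (Fin m → ℂ) (Fin r → ℂ))) (0, 0) :=
      (HasFDerivAt.comp (g := cc') (f := Prod.snd) ((0, 0) : (Fin m → ℂ) × (Fin r → ℂ))
        cc'.hasFDerivAt hasFDerivAt_snd).const_add a
    have h3 := h1.clm_apply h2
    refine h3.congr_fderiv ?_
    ext p
    · simp [hflow0]
    · simp [hflow0]
  have hD0v : ∀ p : (Fin m → ℂ) × (Fin r → ℂ), fderiv ℂ Ψ (0, 0) p =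
      ∑ i, p.1 i • A (l i) a + ∑ j, p.2 j • c j := by
    intro p
    rw [hD0.fderiv]
    simp [hcc]
  have hbij : Function.Bijective (fderiv ℂ Ψ (0, 0)) := by
    have hinj : Function.Injective (fderiv ℂ Ψ (0, 0)) := by
      rw [injective_iff_map_eq_zero]
      intro p hp
      rw [hD0v] at hp
      have h1 : ∑ i, p.1 i • A (l i) a ∈ NN A a := by
        rw [← hl2]
        exact Submodule.sum_mem _ fun i _ =>
          Submodule.smul_mem _ _ (Submodule.subset_span ⟨i, rfl⟩)
      have h2 : ∑ j, p.2 j • c j ∈ C := by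
        rw [← hc2]
        exact Submodule.sum_mem _ fun i _ =>
          Submodule.smul_mem _ _ (Submodule.subset_span ⟨i, rfl⟩)
      have h3 : ∑ i, p.1 i • A (l i) a = 0 := by
        have h4 : ∑ i, p.1 i • A (l i) a = -∑ j, p.2 j • c j := eq_neg_of_add_eq_zero_left hp
        have h5 : ∑ i, p.1 i • A (l i) a ∈ C := by
          rw [h4]
          exact C.neg_mem h2
        exact (Submodule.disjoint_def.mp hC.disjoint) _ h1 h5
      have h6 : ∑ j, p.2 j • c j = 0 := by
        rw [h3, zero_add] at hp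
        exact hp
      have h7 : p.1 = 0 := funext fun i => Fintype.linearIndependent_iff.mp hl1 p.1 h3 i
      have h8 : p.2 = 0 := funext fun i => Fintype.linearIndependent_iff.mp hc1 p.2 h6 i
      exact Prod.ext h7 h8
    refine ⟨hinj, ?_⟩
    have h1 : finrank ℂ ((Fin m → ℂ) × (Fin r → ℂ)) = finrank ℂ E := by
      rw [Module.finrank_prod, Module.finrank_fin_fun, Module.finrank_fin_fun]
      omega
    exact (LinearMap.injective_iff_surjective_of_finrank_eq_finrank h1
      (f := (fderiv ℂ Ψ (0, 0) : ((Fin m → ℂ) × (Fin r → ℂ)) →ₗ[ℂ] E))).mp hinj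
  obtain ⟨g, hg1, hg2, hg3, hg4⟩ := hLOC _ _ Ψ (0, 0) (hΨan _) hbij
  rw [hΨ0] at hg1 hg2 hg4
  -- the coordinate functions
  let F : Fin r → E → ℂ := fun j ξ => (g ξ).2 j
  let P2 : Fin r → ((Fin m → ℂ) × (Fin r → ℂ)) →L[ℂ] ℂ := fun j =>
    (ContinuousLinearMap.proj (R := ℂ) (φ := fun _ : Fin r => ℂ) j).comp
      (ContinuousLinearMap.snd ℂ (Fin m → ℂ) (Fin r → ℂ))
  have hFP : ∀ j, F j = P2 j ∘ g := fun j => rfl
  have hFan : ∀ (j : Fin r) (ξ : E), AnalyticAt ℂ g ξ → AnalyticAt ℂ (F j) ξ := by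
    intro j ξ h
    rw [hFP]
    exact AnalyticAt.comp (g := P2 j) (f := g) ((P2 j).analyticAt _) h
  -- the chain rule for `F j ∘ Ψ`
  have hchain : ∀ (p : (Fin m → ℂ) × (Fin r → ℂ)) (j : Fin r), AnalyticAt ℂ g (Ψ p) →
      (∀ᶠ x in 𝓝 p, g (Ψ x) = x) → ∀ v, fderiv ℂ (F j) (Ψ p) (fderiv ℂ Ψ p v) = v.2 j := by
    intro p j hgp hp v
    have h1 : HasFDerivAt (F j) (fderiv ℂ (F j) (Ψ p)) (Ψ p) :=
      (hFan j _ hgp).differentiableAt.hasFDerivAt
    have h2 : HasFDerivAt Ψ (fderiv ℂ Ψ p) p := (hΨan p).differentiableAt.hasFDerivAt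
    have h3 := h1.comp p h2
    have h4 : F j ∘ Ψ =ᶠ[𝓝 p] P2 j := by
      filter_upwards [hp] with x hx
      change (g (Ψ x)).2 j = x.2 j
      rw [hx]
    have h5 : HasFDerivAt (F j ∘ Ψ) (P2 j) p := (P2 j).hasFDerivAt.congr_of_eventuallyEq h4
    have h6 := h3.unique h5
    have h7 := congrArg (fun L : ((Fin m → ℂ) × (Fin r → ℂ)) →L[ℂ] ℂ => L v) h6
    exact h7
  have hchain' : ∀ (p : (Fin m → ℂ) × (Fin r → ℂ)), AnalyticAt ℂ g (Ψ p) →
      (∀ᶠ x in 𝓝 p, g (Ψ x) = x) → Function.Injective (fderiv ℂ Ψ p) := by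
    intro p hgp hp
    have h1 : HasFDerivAt g (fderiv ℂ g (Ψ p)) (Ψ p) := hgp.differentiableAt.hasFDerivAt
    have h2 : HasFDerivAt Ψ (fderiv ℂ Ψ p) p := (hΨan p).differentiableAt.hasFDerivAt
    have h3 := h1.comp p h2
    have h4 : g ∘ Ψ =ᶠ[𝓝 p] id := hp
    have h5 : HasFDerivAt (g ∘ Ψ) (ContinuousLinearMap.id ℂ _) p :=
      (hasFDerivAt_id p).congr_of_eventuallyEq h4
    have h6 := h3.unique h5
    intro x y hxy
    have h7 := congrArg (fun L => L x) h6
    have h8 := congrArg (fun L => L y) h6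
    simp only [ContinuousLinearMap.comp_apply, ContinuousLinearMap.id_apply] at h7 h8
    rw [← h7, ← h8, hxy]
  refine ⟨F, ?_, ?_⟩
  · intro j
    refine ⟨hFan j a hg1, ?_⟩
    -- the good points near `a`
    have hgc : Tendsto g (𝓝 a) (𝓝 ((0, 0) : (Fin m → ℂ) × (Fin r → ℂ))) := by
      have h1 : Tendsto g (𝓝 a) (𝓝 (g a)) := hg1.continuousAt
      rwa [hg2] at h1
    have hev := hgc.eventually (eventually_eventually_nhds.mpr hg3)
    filter_upwards [hev, hg4, hm, hg1.eventually_analyticAt] with ξ h1 h2 h3 h4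
    intro i
    have hgξ : AnalyticAt ℂ g (Ψ (g ξ)) := by rw [h2]; exact h4
    -- the derivatives of `Ψ` in the directions of `t`
    let e : Fin m → (Fin m → ℂ) × (Fin r → ℂ) := fun p => (Pi.single p 1, 0)
    have hmem : ∀ p, fderiv ℂ Ψ (g ξ) (e p) ∈ NN A ξ := by
      intro p
      obtain ⟨v, hv1, hv2⟩ := hSLF E κ A m l hA (g ξ).1 (a + cc' (g ξ).2) p
      have h5 : flow A l (g ξ).1 (a + cc' (g ξ).2) = ξ := h2
      rw [h5] at hv1
      have h6 : HasFDerivAt Ψ (fderiv ℂ Ψ (g ξ)) (g ξ) :=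
        (hΨan _).differentiableAt.hasFDerivAt
      have h7 : HasDerivAt (fun s : ℂ => (Function.update (g ξ).1 p s, (g ξ).2)) (e p)
          ((g ξ).1 p) :=
        (hasDerivAt_update (g ξ).1 p ((g ξ).1 p)).prodMk (hasDerivAt_const _ _)
      have h8 : (fun s : ℂ => (Function.update (g ξ).1 p s, (g ξ).2)) ((g ξ).1 p) = g ξ := by
        simp
      have h9 : HasFDerivAt Ψ (fderiv ℂ Ψ (g ξ))
          ((fun s : ℂ => (Function.update (g ξ).1 p s, (g ξ).2)) ((g ξ).1 p)) := by
        rw [h8]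
        exact h6
      have h10 := h9.comp_hasDerivAt ((g ξ).1 p) h7
      have h11 := h10.unique hv2
      rw [h11]
      exact hv1
    have hind : LinearIndependent ℂ (fun p => fderiv ℂ Ψ (g ξ) (e p)) := by
      have h5 : LinearIndependent ℂ e := by
        have h6 : LinearIndependent ℂ (fun p : Fin m => (Pi.single p 1 : Fin m → ℂ)) := by
          have h7 := (Pi.basisFun ℂ (Fin m)).linearIndependent
          have h8 : (fun p : Fin m => (Pi.single p 1 : Fin m → ℂ)) = Pi.basisFun ℂ (Fin m) := by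
            funext p
            rw [Pi.basisFun_apply]
          rw [h8]
          exact h7
        exact LinearIndependent.of_comp (LinearMap.fst ℂ (Fin m → ℂ) (Fin r → ℂ)) h6
      exact h5.map' (fderiv ℂ Ψ (g ξ) : ((Fin m → ℂ) × (Fin r → ℂ)) →ₗ[ℂ] E)
        (LinearMap.ker_eq_bot.mpr (hchain' _ hgξ h1))
    have hspan : Submodule.span ℂ (Set.range fun p => fderiv ℂ Ψ (g ξ) (e p)) = NN A ξ := by
      refine Submodule.eq_of_le_of_finrank_le ?_ ?_
      · rw [Submodule.span_le]
        rintro _ ⟨p, rfl⟩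
        exact hmem p
      · rw [h3, finrank_span_eq_card hind, Fintype.card_fin]
    have hker : NN A ξ ≤ LinearMap.ker (fderiv ℂ (F j) ξ : E →ₗ[ℂ] ℂ) := by
      rw [← hspan, Submodule.span_le]
      rintro _ ⟨p, rfl⟩
      change fderiv ℂ (F j) ξ (fderiv ℂ Ψ (g ξ) (e p)) = 0
      have h5 := hchain (g ξ) j hgξ h1 (e p)
      rw [h2] at h5
      rw [h5]
      rfl
    exact hker (Submodule.subset_span ⟨i, rfl⟩)
  · -- linear independence
    rw [Fintype.linearIndependent_iff]
    intro u hu k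
    have h1 : (∑ j, u j • fderiv ℂ (F j) a) (fderiv ℂ Ψ (0, 0) (0, Pi.single k 1)) = 0 := by
      rw [hu]
      rfl
    have h2 : ∀ j, fderiv ℂ (F j) a (fderiv ℂ Ψ (0, 0) (0, Pi.single k 1)) =
        (Pi.single k 1 : Fin r → ℂ) j := by
      intro j
      have h3 := hchain (0, 0) j (by rw [hΨ0]; exact hg1) hg3 (0, Pi.single k 1)
      rw [hΨ0] at h3
      exact h3
    simp only [ContinuousLinearMap.sum_apply, ContinuousLinearMap.smul_apply, h2,
      smul_eq_mul] at h1
    simpa [Pi.single_apply] using h1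

end Pool.MFQ
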