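import Pool.Agent.H51.MFQ.S1

/-!
# Board mfq: STV (description of `stab ξ + V`)
-/

set_option autoImplicit false

open Module

namespace Pool.MFQ

/-- STV. -/
theorem t_stv : STVStmt := by
  intro 𝔤 _ _ _ V hV ξ x
  constructor
  · intro hx
    obtain ⟨s, hs, v, hv, rfl⟩ := Submodule.mem_sup.1 hx
    have hs' : ∀ y : 𝔤, ξ ⁅s, y⁆ = 0 := hs
    refine ⟨fun w hw => ?_, fun y hy => ?_⟩
    · rw [add_lie, map_add, hs' w, hV v hv w hw, map_zero, add_zero]
    · rw [add_lie, map_add, hs' y, zero_add, ← lie_skew, map_neg, hy v hv, neg_zero]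
  · rintro ⟨-, h2⟩
    -- the functionals `y ↦ ξ ⁅v, y⁆`
    let T : 𝔤 →ₗ[ℂ] Dual ℂ 𝔤 :=
      { toFun := fun x => ξ ∘ₗ (LieAlgebra.ad ℂ 𝔤 x : 𝔤 →ₗ[ℂ] 𝔤)
        map_add' := by
          intro a b
          ext y
          simp
        map_smul' := by
          intro a b
          ext y
          simp }
    have hT : ∀ x y, T x y = ξ ⁅x, y⁆ := fun x y => rfl
    let W : Submodule ℂ (Dual ℂ 𝔤) := V.toSubmodule.map T
    have h3 : T x ∈ W.dualCoannihilator.dualAnnihilator := by
      rw [Submodule.mem_dualAnnihilator]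
      intro y hy
      rw [Submodule.mem_dualCoannihilator] at hy
      rw [hT]
      refine h2 y fun v hv => ?_
      have h4 := hy (T v) (Submodule.mem_map_of_mem hv)
      rw [hT] at h4
      rw [← lie_skew, map_neg, h4, neg_zero]
    rw [Subspace.dualCoannihilator_dualAnnihilator_eq] at h3
    obtain ⟨v, hv, hv2⟩ := h3
    have h5 : x - v ∈ stab ξ := by
      intro y
      have h6 := congrArg (fun φ : Dual ℂ 𝔤 => φ y) hv2
      simp only [hT] at h6
      rw [sub_lie, map_sub, h6, sub_self]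
    have h7 : x = (x - v) + v := by abel
    rw [h7]
    exact Submodule.add_mem_sup h5 hv

end Pool.MFQ
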